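import Pool.Agent.Q29.AB.Stm2
import Pool.Agent.Q129.AB.Chr

/-!
# AB-SIXW: odd characters of order six, with weights
-/

set_option autoImplicit false
set_option linter.all false

open Finset Real
open scoped Classical

namespace Pool.Agent.Q177.AB

open Pool.Agent.Q29.AB
open Pool.Agent.Q129.AB

theorem sg_eq {ι : Type} (S U : Finset ι) (M : ι → ℤ) :
    sg S M U = 2 * ∑ i ∈ U ∩ S, M i - ∑ i ∈ S, M i := by
  unfold sg
  have h1 : ∑ i ∈ U ∩ S, M i = ∑ i ∈ S, if i ∈ U then M i else 0 := by
    rw [← sum_filter]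
    refine sum_congr ?_ fun _ _ => rfl
    ext x
    rw [mem_inter, mem_filter, and_comm]
  rw [h1, mul_sum, ← sum_sub_distrib]
  refine sum_congr rfl fun i _ => ?_
  split_ifs <;> ring

theorem sg_inter {ι : Type} (S U : Finset ι) (M : ι → ℤ) : sg S M (U ∩ S) = sg S M U := by
  rw [sg_eq, sg_eq, inter_assoc, inter_self]

theorem elo_sg (hE : S_ELO) {ι : Type} (S : Finset ι) (M : ι → ℤ) (v : ℤ)
    (hM : ∀ i ∈ S, M i ≠ 0) :
    (S.powerset.filter fun U => sg S M U = v).card ≤ S.card.choose (S.card / 2) := by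
  refine le_trans (card_le_card ?_) (hE ι S M ((v + ∑ i ∈ S, M i) / 2) hM)
  intro U hU
  rw [mem_filter] at hU ⊢
  refine ⟨hU.1, ?_⟩
  have h1 := sg_eq S U M
  rw [hU.2, inter_eq_left.2 (mem_powerset.1 hU.1)] at h1
  omega

theorem elo_pairs (hE : S_ELO) {ι κ : Type} (A : Finset ι) (B : Finset κ) (M : ι → ℤ)
    (N : κ → ℤ) (hM : ∀ i ∈ A, M i ≠ 0) (hN : ∀ i ∈ B, N i ≠ 0) :
    ((A.powerset ×ˢ B.powerset).filter fun u => sg A M u.1 = sg B N u.2).card ≤
      (A.card + B.card).choose ((A.card + B.card) / 2) := by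
  have h := hE (ι ⊕ κ) (A.disjSum B) (Sum.elim M fun j => - N j)
    ((∑ i ∈ A, M i - ∑ j ∈ B, N j) / 2) (by
      intro i hi
      rcases i with i | j
      · rw [inl_mem_disjSum] at hi
        exact hM i hi
      · rw [inr_mem_disjSum] at hi
        exact neg_ne_zero.2 (hN j hi))
  rw [card_disjSum] at h
  refine le_trans ?_ h
  refine card_le_card_of_injOn (fun u => u.1.disjSum u.2) ?_ ?_
  · intro u hu
    rw [mem_coe, mem_filter, mem_product, mem_powerset, mem_powerset] at hu
    obtain ⟨⟨h1, h2⟩, h3⟩ := hu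
    rw [mem_coe, mem_filter, mem_powerset]
    refine ⟨disjSum_mono h1 h2, ?_⟩
    rw [sum_disjSum]
    simp only [Sum.elim_inl, Sum.elim_inr, sum_neg_distrib]
    rw [sg_eq, sg_eq, inter_eq_left.2 h1, inter_eq_left.2 h2] at h3
    omega
  · intro u _ u' _ h
    have h1 : u.1.disjSum u.2 = u'.1.disjSum u'.2 := h
    refine Prod.ext ?_ ?_
    · ext x
      rw [← inl_mem_disjSum (t := u.2), h1, inl_mem_disjSum]
    · ext x
      rw [← inr_mem_disjSum (s := u.1), h1, inr_mem_disjSum]

theorem fib {α β : Type} (A : Finset α) (B : Finset β) (f : α → ℤ) (g : β → ℤ)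
    (V : Finset ℤ) (hV : ∀ a ∈ A, f a ∈ V) (P : ℤ → Prop) [DecidablePred P] :
    ((A ×ˢ B).filter fun u => f u.1 = g u.2 ∧ P (f u.1)).card =
      ∑ v ∈ V.filter P, (A.filter fun a => f a = v).card * (B.filter fun b => g b = v).card := by
  rw [card_eq_sum_card_fiberwise (f := fun u : α × β => f u.1) (t := V.filter P)]
  · refine sum_congr rfl fun v hv => ?_
    rw [mem_filter] at hv
    rw [← card_product]
    congr 1
    ext u
    simp only [mem_filter, mem_product]
    constructor
    · rintro ⟨⟨⟨h1, h2⟩, h3, h4⟩, h5⟩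
      exact ⟨⟨h1, h5⟩, h2, by rw [← h3, h5]⟩
    · rintro ⟨⟨h1, h5⟩, h2, h3⟩
      exact ⟨⟨⟨h1, h2⟩, by rw [h5, h3], by rw [h5]; exact hv.2⟩, h5⟩
  · intro u hu
    rw [mem_coe, mem_filter, mem_product] at hu
    rw [mem_coe, mem_filter]
    exact ⟨hV _ hu.1.1, hu.2.2⟩

theorem half (hE : S_ELO) (hH : S_HAL) {ι : Type} (A B : Finset ι) (M : ι → ℤ) (k : ℕ)
    (hA : A.card = k) (hB : B.card = k) (hk : Even k) (hM : ∀ i, Odd (M i)) :
    2 * ((A.powerset ×ˢ B.powerset).filter fun u => sg A M u.1 = sg B M u.2 ∧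
      sg A M u.1 % 4 = 2).card ≤ (2 * k).choose k := by
  have hM0 : ∀ i, M i ≠ 0 := fun i h => by
    have := hM i
    rw [h] at this
    exact absurd this (by decide)
  set V : Finset ℤ := A.powerset.image (sg A M) ∪ B.powerset.image (sg B M) with hVd
  have hVA : ∀ U ∈ A.powerset, sg A M U ∈ V := fun U hU =>
    mem_union_left _ (mem_image_of_mem _ hU)
  have hVB : ∀ U ∈ B.powerset, sg B M U ∈ V := fun U hU =>
    mem_union_right _ (mem_image_of_mem _ hU)
  have e1 := fib A.powerset B.powerset (sg A M) (sg B M) V hVA (fun v => v % 4 = 2)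
  have e2 := fib A.powerset A.powerset (sg A M) (sg A M) V hVA (fun v => v % 4 = 2)
  have e3 := fib B.powerset B.powerset (sg B M) (sg B M) V hVB (fun v => v % 4 = 2)
  have a1 := hH ι A M (hA ▸ hk) fun i _ => hM i
  have a2 := hH ι B M (hB ▸ hk) fun i _ => hM i
  have b1 := elo_pairs hE A A M M (fun i _ => hM0 i) (fun i _ => hM0 i)
  have b2 := elo_pairs hE B B M M (fun i _ => hM0 i) (fun i _ => hM0 i)
  have hk2 : (k + k) / 2 = k := by omega
  rw [hA, hk2, ← two_mul] at b1
  rw [hB, hk2, ← two_mul] at b2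
  rw [e1]
  rw [e2] at a1
  rw [e3] at a2
  have key : 2 * ∑ v ∈ V.filter (fun v => v % 4 = 2),
      (A.powerset.filter fun a => sg A M a = v).card *
        (B.powerset.filter fun b => sg B M b = v).card ≤
      (∑ v ∈ V.filter (fun v => v % 4 = 2), (A.powerset.filter fun a => sg A M a = v).card *
        (A.powerset.filter fun a => sg A M a = v).card) +
      ∑ v ∈ V.filter (fun v => v % 4 = 2), (B.powerset.filter fun a => sg B M a = v).card *
        (B.powerset.filter fun a => sg B M a = v).card := by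
    rw [mul_sum, ← sum_add_distrib]
    refine sum_le_sum fun v _ => ?_
    have : ∀ x y : ℕ, 2 * (x * y) ≤ x * x + y * y := fun x y => by
      zify
      nlinarith [sq_nonneg ((x : ℤ) - y)]
    exact this _ _
  omega

theorem cube_root_int {ω : ℂ} (hω : IsPrimitiveRoot ω 3) (a b c : ℤ)
    (h : (a : ℂ) + b * ω + c * ω ^ 2 = 0) : a = b ∧ b = c := by
  have h1 : 1 + ω + ω ^ 2 = 0 := by
    have := hω.geom_sum_eq_zero (by norm_num)
    rw [sum_range_succ, sum_range_succ, sum_range_succ, sum_range_zero] at this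
    linear_combination this
  have h2 : ((a : ℂ) - c) + ((b : ℂ) - c) * ω = 0 := by linear_combination h - (c : ℂ) * h1
  have him : ω.im ≠ 0 := by
    intro h0
    have h3 := congrArg Complex.re h1
    have h4 : (ω ^ 2).re = ω.re ^ 2 := by
      rw [pow_two, Complex.mul_re, h0]
      ring
    rw [Complex.add_re, Complex.add_re, h4, Complex.one_re, Complex.zero_re] at h3
    nlinarith [sq_nonneg (ω.re + 1 / 2)]
  have h5 := congrArg Complex.im h2
  have h6 : (((a : ℂ) - c) + ((b : ℂ) - c) * ω).im = ((b : ℝ) - c) * ω.im := by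
    simp [Complex.add_im, Complex.mul_im]
  rw [h6, Complex.zero_im] at h5
  have h7 : (b : ℝ) - c = 0 := (mul_eq_zero.mp h5).resolve_right him
  have h8 : (b : ℂ) - c = 0 := by
    have := congrArg (fun r : ℝ => (r : ℂ)) h7
    push_cast at this
    exact this
  rw [h8, zero_mul, add_zero] at h2
  have e1 : (b : ℂ) = c := sub_eq_zero.mp h8
  have e2 : (a : ℂ) = c := sub_eq_zero.mp h2
  have e3 : b = c := by exact_mod_cast e1
  have e4 : a = c := by exact_mod_cast e2
  exact ⟨e4.trans e3.symm, e3⟩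

theorem t_SIXW : S_SIXW := by
  intro hE hT hW hH G _ _ c M g k χ hc hG hM0 hMc hχ hn hgk
  have hchin : ∀ x, (χ x : ℂ) ^ 6 = 1 := by
    intro x
    have h1 : (χ ^ orderOf χ) x = 1 := by rw [pow_orderOf_eq_one, MonoidHom.one_apply]
    rw [MonoidHom.pow_apply, hn] at h1
    have h2 := congrArg (fun u : ℂˣ => (u : ℂ)) h1
    simpa using h2
  set ω : ℂ := Complex.exp (2 * π * Complex.I / (3 : ℕ)) with hωd
  have hω : IsPrimitiveRoot ω 3 := Complex.isPrimitiveRoot_exp 3 (by norm_num)
  have hω0 : ω ≠ 0 := hω.ne_zero (by norm_num)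
  set S : ℕ → Finset G := fun j => univ.filter fun x => (χ x : ℂ) = ω ^ j with hS
  have hfib : ∀ j : ℕ, (S j).card = k := by
    intro j
    set y : ℂˣ := Units.mk0 (ω ^ j) (pow_ne_zero _ hω0) with hy
    have h1 := chr_fibre χ y (by
      rw [hn]
      ext
      rw [Units.val_pow_eq_pow_val, hy, Units.val_mk0, ← pow_mul,
        show j * 6 = 3 * (j * 2) by ring, pow_mul, hω.pow_eq_one, one_pow, Units.val_one])
    rw [hn, hG] at h1
    have h2 : (univ.filter fun x => χ x = y) = S j := by
      ext x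
      rw [hS]
      simp only [mem_filter, mem_univ, true_and]
      rw [Units.ext_iff, hy, Units.val_mk0]
    rw [h2] at h1
    omega
  have hdis : ∀ i j, i < 3 → j < 3 → i ≠ j → Disjoint (S i) (S j) := by
    intro i j hi hj hij
    rw [Finset.disjoint_left]
    intro x hx hx'
    rw [hS] at hx hx'
    simp only [mem_filter, mem_univ, true_and] at hx hx'
    exact hij (hω.pow_inj hi hj (hx.symm.trans hx'))
  -- the transversal
  set T : Finset G := univ.filter fun x => (χ x : ℂ) ^ 3 = 1 with hTd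
  have hTt : T ∈ types c := by
    unfold types
    rw [mem_filter]
    refine ⟨mem_univ _, fun x => ?_⟩
    rw [hTd, mem_filter, mem_filter]
    simp only [mem_univ, true_and]
    have hcx : (χ (c * x) : ℂ) = -(χ x : ℂ) := by
      rw [map_mul, hχ]
      push_cast
      ring
    have h1 : ((χ x : ℂ) ^ 3) * ((χ x : ℂ) ^ 3) = 1 := by
      rw [← pow_add]
      exact hchin x
    rw [hcx, neg_pow, show (-1 : ℂ) ^ 3 = -1 by norm_num]
    rcases mul_self_eq_one_iff.mp h1 with h2 | h2
    · rw [h2]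
      norm_num
    · rw [h2]
      norm_num
  have hTS : T = S 0 ∪ (S 1 ∪ S 2) := by
    ext x
    rw [hTd, hS]
    simp only [mem_filter, mem_univ, true_and, mem_union]
    constructor
    · intro hx
      obtain ⟨i, hi, hix⟩ := hω.eq_pow_of_pow_eq_one hx
      interval_cases i
      · left; exact hix.symm
      · right; left; exact hix.symm
      · right; right; exact hix.symm
    · rintro (hx | hx | hx) <;> rw [hx, ← pow_mul, mul_comm, pow_mul, hω.pow_eq_one, one_pow]
  have hd12 : Disjoint (S 1) (S 2) := hdis 1 2 (by norm_num) (by norm_num) (by norm_num)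
  have hd0 : Disjoint (S 0) (S 1 ∪ S 2) := by
    rw [disjoint_union_right]
    exact ⟨hdis 0 1 (by norm_num) (by norm_num) (by norm_num),
      hdis 0 2 (by norm_num) (by norm_num) (by norm_num)⟩
  obtain ⟨-, hbij, -⟩ := hT G c g T hc hG hTt
  -- sums over subsets of the transversal
  have hsub : ∀ Ψ : Finset G, wSum M χ (Ψ ∩ T) =
      ((∑ x ∈ Ψ ∩ S 0, M x : ℤ) : ℂ) + ((∑ x ∈ Ψ ∩ S 1, M x : ℤ) : ℂ) * ω +
        ((∑ x ∈ Ψ ∩ S 2, M x : ℤ) : ℂ) * ω ^ 2 := by
    intro Ψ
    have hj : ∀ j, ∑ x ∈ Ψ ∩ S j, (M x : ℂ) * (χ x : ℂ) =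
        ((∑ x ∈ Ψ ∩ S j, M x : ℤ) : ℂ) * ω ^ j := by
      intro j
      rw [Int.cast_sum, sum_mul]
      refine sum_congr rfl fun x hx => ?_
      rw [mem_inter, hS] at hx
      simp only [mem_filter, mem_univ, true_and] at hx
      rw [hx.2]
    unfold wSum
    rw [hTS, inter_union_distrib_left, inter_union_distrib_left, sum_union, sum_union, hj, hj, hj,
      pow_zero, mul_one, pow_one]
    · ring
    · exact hd12.mono inter_subset_right inter_subset_right
    · rw [← inter_union_distrib_left]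
      exact Disjoint.mono inter_subset_right inter_subset_right hd0
  have hval : ∀ Ψ ∈ types c, wSum M χ Ψ =
      ((sg (S 0) M Ψ : ℤ) : ℂ) + ((sg (S 1) M Ψ : ℤ) : ℂ) * ω +
        ((sg (S 2) M Ψ : ℤ) : ℂ) * ω ^ 2 := by
    intro Ψ hΨ
    have h1 := hsub univ
    rw [univ_inter, univ_inter, univ_inter, univ_inter] at h1
    rw [hW G c M T hc hTt hMc χ Ψ hχ hΨ, hsub, h1, sg_eq, sg_eq, sg_eq]
    push_cast
    ring
  have heq : ∀ Ψ ∈ killedW c M χ, sg (S 0) M Ψ = sg (S 1) M Ψ ∧
      sg (S 1) M Ψ = sg (S 2) M Ψ := by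
    intro Ψ hΨ
    rw [killedW, mem_filter] at hΨ
    have h1 := hval Ψ hΨ.1
    rw [hΨ.2] at h1
    exact cube_root_int hω _ _ _ h1.symm
  -- the count
  have count : ∀ (P : ℤ → Prop) [DecidablePred P],
      ((killedW c M χ).filter fun Ψ => P (sg (S 1) M Ψ)).card ≤ k.choose (k / 2) *
        (((S 1).powerset ×ˢ (S 2).powerset).filter fun u => sg (S 1) M u.1 = sg (S 2) M u.2 ∧
          P (sg (S 1) M u.1)).card := by
    intro P _
    set W := ((S 1).powerset ×ˢ (S 2).powerset).filter fun u =>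
      sg (S 1) M u.1 = sg (S 2) M u.2 ∧ P (sg (S 1) M u.1) with hWd
    have h1 : ((killedW c M χ).filter fun Ψ => P (sg (S 1) M Ψ)).card ≤
        (((S 0).powerset ×ˢ W).filter fun u => sg (S 0) M u.1 = sg (S 1) M u.2.1).card := by
      refine card_le_card_of_injOn (fun Ψ => (Ψ ∩ S 0, (Ψ ∩ S 1, Ψ ∩ S 2))) ?_ ?_
      · intro Ψ hΨ
        rw [mem_coe, mem_filter] at hΨ
        obtain ⟨e1, e2⟩ := heq Ψ hΨ.1
        rw [mem_coe, mem_filter, mem_product, hWd, mem_filter, mem_product, mem_powerset,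
          mem_powerset, mem_powerset]
        simp only [sg_inter]
        exact ⟨⟨inter_subset_right, ⟨inter_subset_right, inter_subset_right⟩, e2, hΨ.2⟩, e1⟩
      · intro Ψ hΨ Ψ' hΨ' h
        rw [mem_coe, mem_filter, killedW, mem_filter] at hΨ hΨ'
        have h0 := congrArg (fun q => q.1) h
        have h1 := congrArg (fun q => q.2.1) h
        have h2 := congrArg (fun q => q.2.2) h
        simp only at h0 h1 h2
        refine hbij.injOn (mem_coe.mpr hΨ.1.1) (mem_coe.mpr hΨ'.1.1) ?_
        show Ψ ∩ T = Ψ' ∩ T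
        rw [hTS, inter_union_distrib_left, inter_union_distrib_left, inter_union_distrib_left,
          inter_union_distrib_left, h0, h1, h2]
    refine h1.trans ?_
    refine card_le_mul_card_image_of_maps_to (f := fun u => u.2) (t := W) ?_ _ ?_
    · intro u hu
      exact (mem_product.1 (mem_filter.1 hu).1).2
    · intro b _
      have h2 := elo_sg hE (S 0) M (sg (S 1) M b.1) fun i _ => hM0 i
      rw [hfib] at h2
      refine le_trans (card_le_card_of_injOn (fun u => u.1) ?_ ?_) h2
      · intro u hu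
        rw [mem_coe, mem_filter, mem_filter, mem_product] at hu
        obtain ⟨⟨⟨h3, _⟩, h4⟩, h5⟩ := hu
        rw [mem_coe, mem_filter]
        exact ⟨h3, by rw [h4, h5]⟩
      · intro u hu u' hu' h
        rw [mem_coe, mem_filter] at hu hu'
        exact Prod.ext h (hu.2.trans hu'.2.symm)
  have hpow : (2 : ℝ) ^ g * (rho k * rho (2 * k)) =
      (k.choose (k / 2) : ℝ) * ((2 * k).choose k : ℝ) := by
    unfold rho
    rw [hgk, show 2 * k / 2 = k by omega, show 3 * k = k + 2 * k by ring, pow_add]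
    have h1 : (2 : ℝ) ^ k ≠ 0 := by positivity
    have h2 : (2 : ℝ) ^ (2 * k) ≠ 0 := by positivity
    field_simp
  have hpr := elo_pairs hE (S 1) (S 2) M M (fun i _ => hM0 i) (fun i _ => hM0 i)
  rw [hfib, hfib, ← two_mul, show 2 * k / 2 = k by omega] at hpr
  constructor
  · rw [hpow]
    have h1 := count fun _ => True
    simp only [and_true, filter_true] at h1
    have h2 := h1.trans (Nat.mul_le_mul_left _ hpr)
    exact_mod_cast h2
  · intro h4k hodd
    have hk : Even k := by
      obtain ⟨m, hm⟩ := h4k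
      exact ⟨2 * m, by omega⟩
    have h1 := count fun v => v % 4 = 2
    have h2 := half hE hH (S 1) (S 2) M k (hfib 1) (hfib 2) hk hodd
    have h3 : ((killedW c M χ).filter fun Ψ => sInt M (χ ^ 3) Ψ % 4 = 2) ⊆
        (killedW c M χ).filter fun Ψ => sg (S 1) M Ψ % 4 = 2 := by
      intro Ψ hΨ
      rw [mem_filter] at hΨ ⊢
      refine ⟨hΨ.1, ?_⟩
      obtain ⟨e1, e2⟩ := heq Ψ hΨ.1
      have hΨt : Ψ ∈ types c := by
        have := hΨ.1
        rw [killedW, mem_filter] at this
        exact this.1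
      have h5 : sInt M (χ ^ 3) Ψ = sg (S 0) M Ψ + sg (S 1) M Ψ + sg (S 2) M Ψ := by
        have h6 : ∀ Φ : Finset G, wSum M (χ ^ 3) (Φ ∩ T) = ((∑ x ∈ Φ ∩ T, M x : ℤ) : ℂ) := by
          intro Φ
          unfold wSum
          rw [Int.cast_sum]
          refine sum_congr rfl fun x hx => ?_
          rw [mem_inter, hTd, mem_filter] at hx
          rw [MonoidHom.pow_apply, Units.val_pow_eq_pow_val, hx.2.2, mul_one]
        have h7 : (χ ^ 3) c = -1 := by
          rw [MonoidHom.pow_apply, hχ]
          ext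
          norm_num
        have h8 := hW G c M T hc hTt hMc (χ ^ 3) Ψ h7 hΨt
        have h9 := h6 univ
        rw [univ_inter] at h9
        rw [h6, h9] at h8
        have h10 : wSum M (χ ^ 3) Ψ = ((sInt M (χ ^ 3) Ψ : ℤ) : ℂ) := by
          unfold wSum sInt
          rw [Int.cast_sum]
          refine sum_congr rfl fun x _ => ?_
          have h11 : ((χ x : ℂ) ^ 3) * ((χ x : ℂ) ^ 3) = 1 := by
            rw [← pow_add]
            exact hchin x
          rw [MonoidHom.pow_apply]
          rcases mul_self_eq_one_iff.mp h11 with h12 | h12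
          · have h13 : χ x ^ 3 = 1 := by
              ext
              rw [Units.val_pow_eq_pow_val, h12, Units.val_one]
            rw [if_pos h13, Units.val_pow_eq_pow_val, h12]
            push_cast
            ring
          · have h13 : ¬ χ x ^ 3 = 1 := by
              intro h14
              have h15 := congrArg (fun u : ℂˣ => (u : ℂ)) h14
              simp only [Units.val_pow_eq_pow_val, Units.val_one] at h15
              rw [h12] at h15
              norm_num at h15
            rw [if_neg h13, Units.val_pow_eq_pow_val, h12]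
            push_cast
            ring
        rw [h10] at h8
        have h16 : sInt M (χ ^ 3) Ψ = 2 * (∑ x ∈ Ψ ∩ T, M x) - ∑ x ∈ T, M x := by
          exact_mod_cast h8
        rw [h16, sg_eq, sg_eq, sg_eq]
        have h17 : ∑ x ∈ Ψ ∩ T, M x = ∑ x ∈ Ψ ∩ S 0, M x + (∑ x ∈ Ψ ∩ S 1, M x +
            ∑ x ∈ Ψ ∩ S 2, M x) := by
          rw [hTS, inter_union_distrib_left, inter_union_distrib_left, sum_union, sum_union]
          · exact hd12.mono inter_subset_right inter_subset_right
          · rw [← inter_union_distrib_left]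
            exact Disjoint.mono inter_subset_right inter_subset_right hd0
        have h18 : ∑ x ∈ T, M x = ∑ x ∈ S 0, M x + (∑ x ∈ S 1, M x + ∑ x ∈ S 2, M x) := by
          rw [hTS, sum_union hd0, sum_union hd12]
        rw [h17, h18]
        ring
      have h6 := hΨ.2
      omega
    have h5 := (card_le_card h3).trans h1
    have h6 : 2 * ((killedW c M χ).filter fun Ψ => sInt M (χ ^ 3) Ψ % 4 = 2).card ≤
        k.choose (k / 2) * (2 * k).choose k := by
      calc 2 * ((killedW c M χ).filter fun Ψ => sInt M (χ ^ 3) Ψ % 4 = 2).card ≤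
          2 * (k.choose (k / 2) * (((S 1).powerset ×ˢ (S 2).powerset).filter fun u =>
            sg (S 1) M u.1 = sg (S 2) M u.2 ∧ sg (S 1) M u.1 % 4 = 2).card) :=
            Nat.mul_le_mul_left _ h5
        _ = k.choose (k / 2) * (2 * (((S 1).powerset ×ˢ (S 2).powerset).filter fun u =>
            sg (S 1) M u.1 = sg (S 2) M u.2 ∧ sg (S 1) M u.1 % 4 = 2).card) := by ring
        _ ≤ _ := Nat.mul_le_mul_left _ h2
    have h7 : (2 : ℝ) * ((((killedW c M χ).filter fun Ψ => sInt M (χ ^ 3) Ψ % 4 = 2).card : ℕ) : ℝ)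
        ≤ (k.choose (k / 2) : ℝ) * ((2 * k).choose k : ℝ) := by exact_mod_cast h6
    rw [← hpow] at h7
    linarith

end Pool.Agent.Q177.AB
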